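import Pool.Agent.H444R3.GapNoPlane

set_option autoImplicit false

/-!
MP_2920eb_co: the conjecture on the extremal graphs is false for the family of graphs of minimum
degree at least `d`, for every prime power `d` such that there is no projective plane of order
`d - 1`, in particular for infinitely many `d`.
-/

namespace Pool.Agent.Results.MP_2920eb_co.MinDegreeFamily

open Pool.Agent.H444R3.GapDefs

/-- Let `d ≥ 3` be a prime power such that there is no projective plane of order `d - 1`. Then every
incidence graph of a `(v, d, l)` design with minimum degree at least `d` has gap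
at most `√(d - 2) / d`, which is less than `√d / (d + 1)`, and there is a connected graph of minimum
degree at least `d` with gap `√d / (d + 1)`; so no graph attaining the supremum of the gaps in this
family is the incidence graph of a design with block size `d`. There are infinitely many such `d`,
even among the primes. -/
theorem result :
    (∀ d : ℕ, 3 ≤ d → IsPrimePow d → NoPlane (d - 1) →
      (∀ (V : Type) [Fintype V] (G : SimpleGraph V), IsMinDeg d G → IsDesignGraph G d →
        gap G ≤ Real.sqrt ((d : ℝ) - 2) / d) ∧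
      Real.sqrt ((d : ℝ) - 2) / d < Real.sqrt d / ((d : ℝ) + 1) ∧
      Real.sqrt d / ((d : ℝ) + 1) ∈ gapsMin d ∧
      ∀ (V : Type) [Fintype V] (G : SimpleGraph V), IsMinDeg d G → gap G = sSup (gapsMin d) →
        ¬ IsDesignGraph G d) ∧
    {d : ℕ | 3 ≤ d ∧ d.Prime ∧ NoPlane (d - 1)}.Infinite := by
  refine ⟨?_, ?_⟩
  · intro d hd hpp hno
    have hdpos : (0 : ℝ) < d := by exact_mod_cast (by omega : 0 < d)
    have hd3 : (3 : ℝ) ≤ d := by exact_mod_cast hd
    have h1 : Real.sqrt ((d : ℝ) - 2) / d < Real.sqrt d / ((d : ℝ) + 1) := by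
      rw [div_lt_div_iff₀ hdpos (by linarith)]
      have h2 : Real.sqrt ((d : ℝ) - 2) * ((d : ℝ) + 1) =
          Real.sqrt (((d : ℝ) - 2) * ((d : ℝ) + 1) ^ 2) := by
        rw [Real.sqrt_mul (by linarith), Real.sqrt_sq (by linarith)]
      have h3 : Real.sqrt (d : ℝ) * d = Real.sqrt ((d : ℝ) * (d : ℝ) ^ 2) := by
        rw [Real.sqrt_mul hdpos.le, Real.sqrt_sq hdpos.le]
      rw [h2, h3]
      apply Real.sqrt_lt_sqrt
      · apply mul_nonneg (by linarith) (sq_nonneg _)
      · nlinarith
    have h4 : Real.sqrt d / ((d : ℝ) + 1) ∈ gapsMin d := gap_prime_pow d hpp d (by omega)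
    have h5 : Real.sqrt d / ((d : ℝ) + 1) ≤ sSup (gapsMin d) :=
      le_csSup (bdd_gapsMin d (by omega)) h4
    refine ⟨fun V _ G hG hD => design_noplane G hd hno hG hD, h1, h4, ?_⟩
    intro V _ G hG hgap hD
    have h6 := design_noplane G hd hno hG hD
    rw [hgap] at h6
    linarith
  · have hinf := Nat.infinite_setOfPred_prime_and_modEq (q := 36) (a := 7) (by norm_num)
      (by norm_num)
    apply hinf.mono
    rintro p ⟨hp, hmod⟩
    have h36 : p % 36 = 7 := by
      have : p % 36 = 7 % 36 := hmod
      simpa using this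
    exact ⟨by omega, hp, noPlane_36 h36⟩

end Pool.Agent.Results.MP_2920eb_co.MinDegreeFamily
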