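import Pool.Agent.H444R3.GapEx33
import Pool.Agent.H444R3.GapConf

set_option autoImplicit false

/-!
MP_2920eb_co: the conjecture on the extremal graphs is false for the family of `d`-regular graphs,
for `d = 7` and for all primes `d = 7 (mod 8)` such that `(d - 1) / 2` is prime.
-/

namespace Pool.Agent.Results.MP_2920eb_co.RegularFamily

open Pool.Agent.H444R3.GapDefs

/-- for a prime `d = 7 (mod 8)` with `(d - 1) / 2` prime, every incidence graph of a `(v, d, l)`
design in the family of connected `d`-regular graphs has gap at most `√((d + 1) / 2) / d`, and the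
supremum of the gaps of this family is strictly larger; so no graph attaining the supremum is the
incidence graph of a design with block size `d`. For `d = 7` there is a graph with gap
exactly `√5 / 7 = √(d - 2) / d`; for the other `d` the supremum is at least `(√d - 1) / d`. -/
theorem result (d : ℕ) (hd : d.Prime) (h8 : d % 8 = 7) (hs : ((d - 1) / 2).Prime) :
    (∀ (V : Type) [Fintype V] (G : SimpleGraph V), IsReg d G → IsDesignGraph G d →
      gap G ≤ Real.sqrt (((d : ℝ) + 1) / 2) / d) ∧
    Real.sqrt (((d : ℝ) + 1) / 2) / d < sSup (gapsReg d) ∧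
    (∀ (V : Type) [Fintype V] (G : SimpleGraph V), IsReg d G → gap G = sSup (gapsReg d) →
      ¬ IsDesignGraph G d) ∧
    (d = 7 → Real.sqrt 5 / 7 ∈ gapsReg 7) ∧
    (d ≠ 7 → (Real.sqrt d - 1) / d ≤ sSup (gapsReg d)) := by
  have hd7 : 7 ≤ d := by omega
  have hdpos : (0 : ℝ) < d := by exact_mod_cast (by omega : 0 < d)
  have hA : ∀ (V : Type) [Fintype V] (G : SimpleGraph V), IsReg d G → IsDesignGraph G d →
      gap G ≤ Real.sqrt (((d : ℝ) + 1) / 2) / d := by
    intro V _ G hG hD
    exact design_safe G hd h8 hs ⟨hG.1, hG.2.1, fun v => (hG.2.2 v).ge⟩ hD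
  have hC : (Real.sqrt d - 1) / d ≤ sSup (gapsReg d) := by
    obtain ⟨r, hr, hle⟩ := gap_minus_pow d hd.isPrimePow (by omega)
    exact hle.trans (le_csSup (bdd_gapsReg d (by omega)) hr)
  have hB : Real.sqrt (((d : ℝ) + 1) / 2) / d < sSup (gapsReg d) := by
    by_cases h7 : d = 7
    · subst h7
      refine lt_of_lt_of_le ?_ (le_csSup (bdd_gapsReg 7 (by norm_num)) gap33)
      have h1 : Real.sqrt ((((7 : ℕ) : ℝ) + 1) / 2) < Real.sqrt 5 := by
        apply Real.sqrt_lt_sqrt
        · norm_num
        · norm_num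
      have h2 : (((7 : ℕ) : ℝ)) = 7 := by norm_num
      rw [h2] at h1 ⊢
      gcongr
    · refine lt_of_lt_of_le ?_ hC
      have h15 : 15 ≤ d := by omega
      have h15' : (15 : ℝ) ≤ d := by exact_mod_cast h15
      apply div_lt_div_of_pos_right _ hdpos
      have hs2 : Real.sqrt d ^ 2 = d := Real.sq_sqrt hdpos.le
      have hs1 : 3.8 < Real.sqrt d := by
        rw [Real.lt_sqrt (by norm_num)]
        norm_num
        linarith
      rw [Real.sqrt_lt' (by linarith)]
      nlinarith
  refine ⟨hA, hB, ?_, fun _ => gap33, fun _ => hC⟩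
  intro V _ G hG hgap hD
  have := hA V G hG hD
  rw [hgap] at this
  linarith

end Pool.Agent.Results.MP_2920eb_co.RegularFamily
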